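import Pool.Agent.Y512.FGC.CF

set_option autoImplicit false

namespace Pool.Agent.Results.MP_4da108_an.ProductWithAlt

open Pool.Agent.H516R3.Alt
open Pool.Agent.Results.MP_4da108_an.AltWeaklyCentral

/-- Let `H` be any discrete group and let `FAlt` be the group of finitary even permutations of `ℕ`.
The full group C*-algebra of `H × FAlt` is never central, and it is weakly central if and only if
the full group C*-algebra of `H` is.  The latter is so whenever the centre of `H` has finite index
(for instance if `H` is abelian or finite).  Full group C*-algebras exist. -/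
theorem result :
    (∀ (H : Type) [Group H] (B : Type) [CStarAlgebra B] (w : H →* unitary B)
      (A : Type) [CStarAlgebra A] (u : H × FAlt →* unitary A),
      IsFullGroupCStar H B w → IsFullGroupCStar (H × FAlt) A u →
        ¬ IsCentral A ∧ (IsWeaklyCentral A ↔ IsWeaklyCentral B)) ∧
    (∀ (H : Type) [Group H] (B : Type) [CStarAlgebra B] (w : H →* unitary B),
      IsFullGroupCStar H B w → Finite (H ⧸ Subgroup.center H) → IsWeaklyCentral B) ∧
    ∀ (G : Type) [Group G], ∃ (A : Type) (_ : CStarAlgebra A) (u : G →* unitary A),
      IsFullGroupCStar G A u :=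
  ⟨fun _ _ _ _ _ _ _ _ hB hA => Pool.Agent.Y512.FGC.main hA hB,
    fun _ _ _ _ _ hB hf => Pool.Agent.Y512.FGC.weaklyCentral_of_finite hB hf,
    fun G _ => Pool.Agent.Y512.FGC.exists_fullGroup G⟩

end Pool.Agent.Results.MP_4da108_an.ProductWithAlt
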